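import Pool.Agent.Helper66.BergI

set_option autoImplicit false
open MeasureTheory Set Filter Topology
open scoped ENNReal NNReal ComplexConjugate

namespace Pool.Agent.Results.MP_5b3867_an.BergmanTwoWeight

noncomputable section

/-- Normalised area measure on the open unit disc. -/
def diskArea : Measure ℂ :=
  ENNReal.ofReal (Real.pi)⁻¹ • (volume.restrict (Metric.ball (0:ℂ) 1))

/-- The Bergman projection. -/
def bergman (f : ℂ → ℂ) (z : ℂ) : ℂ :=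
  ∫ ζ, f ζ / (1 - z * conj ζ) ^ 2 ∂diskArea

/-- The maximal Bergman projection. -/
def bergmanPlus (f : ℂ → ℂ) (z : ℂ) : ℂ :=
  ∫ ζ, f ζ / ((‖1 - z * conj ζ‖ ^ 2 : ℝ) : ℂ) ∂diskArea

/-- A weight: positive and locally integrable on the open unit disc. -/
def IsWeight (w : ℂ → ℝ) : Prop :=
  (∀ z ∈ Metric.ball (0:ℂ) 1, 0 < w z) ∧ LocallyIntegrableOn w (Metric.ball (0:ℂ) 1) volume

/-- Bounded measurable functions with compact support in the open unit disc. -/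
def IsTest (f : ℂ → ℂ) : Prop :=
  Measurable f ∧ (∃ M : ℝ, ∀ z, ‖f z‖ ≤ M) ∧ ∃ s : ℝ, s < 1 ∧ ∀ z : ℂ, s < ‖z‖ → f z = 0

/-- `T(σ ·)` is bounded from `L²(σ)` to `L²(w)` (squared norms, so `C` is the square of the
usual constant). -/
def TwoWeightBounded (T : (ℂ → ℂ) → ℂ → ℂ) (σ w : ℂ → ℝ) : Prop :=
  ∃ C : ℝ≥0, ∀ f : ℂ → ℂ, IsTest f →
    ∫⁻ z, ‖T (fun ζ => (σ ζ : ℂ) * f ζ) z‖ₑ ^ 2 * ENNReal.ofReal (w z) ∂diskArea
      ≤ (C : ℝ≥0∞) * ∫⁻ z, ‖f z‖ₑ ^ 2 * ENNReal.ofReal (σ z) ∂diskArea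

open Pool.Agent.Helper66.Berg

lemma lint_disk (g : ℂ → ℝ≥0∞) :
    ∫⁻ z, g z ∂diskArea = ENNReal.ofReal (Real.pi)⁻¹ * ∫⁻ z in Metric.ball (0:ℂ) 1, g z := by
  rw [diskArea, lintegral_smul_measure, smul_eq_mul]

lemma int_disk (g : ℂ → ℂ) :
    ∫ z, g z ∂diskArea = ((Real.pi)⁻¹ : ℝ) • ∫ z in Metric.ball (0:ℂ) 1, g z := by
  rw [diskArea, integral_smul_measure, ENNReal.toReal_ofReal (by have := Real.pi_pos; positivity)]

lemma bdd_bergman : TwoWeightBounded bergman sW wW := by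
  refine ⟨(Real.pi⁻¹).toNNReal ^ 2 * (10 * Real.pi * mom mu0 0).toNNReal, ?_⟩
  rintro f ⟨hf, hb, -⟩
  have h1 := PB_bound f hf hb
  have h2 : ∀ z : ℂ, ‖bergman (fun ζ => (sW ζ : ℂ) * f ζ) z‖ₑ ^ 2 * ENNReal.ofReal (wW z)
      = ENNReal.ofReal (Real.pi)⁻¹ ^ 2 * (‖∫ ζ in Metric.ball (0:ℂ) 1,
          f ζ * (sW ζ : ℂ) / (1 - z * starRingEnd ℂ ζ) ^ 2‖ₑ ^ 2 * ENNReal.ofReal (wW z)) := by
    intro z
    have h3 : bergman (fun ζ => (sW ζ : ℂ) * f ζ) z = ((Real.pi)⁻¹ : ℝ) • ∫ ζ in Metric.ball (0:ℂ) 1,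
          f ζ * (sW ζ : ℂ) / (1 - z * starRingEnd ℂ ζ) ^ 2 := by
      rw [bergman, int_disk]
      congr 2
      ext ζ
      rw [mul_comm]
    rw [h3, enorm_smul, mul_pow, Real.enorm_eq_ofReal (by have := Real.pi_pos; positivity)]
    ring
  rw [lint_disk, lint_disk]
  simp_rw [h2]
  rw [lintegral_const_mul' _ _ (by simp)]
  have h4 : (((Real.pi⁻¹).toNNReal ^ 2 * (10 * Real.pi * mom mu0 0).toNNReal : ℝ≥0) : ℝ≥0∞)
      = ENNReal.ofReal (Real.pi)⁻¹ ^ 2 * ((10 * Real.pi * mom mu0 0).toNNReal : ℝ≥0∞) := by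
    push_cast
    rfl
  rw [h4]
  calc _ ≤ ENNReal.ofReal (Real.pi)⁻¹ * (ENNReal.ofReal (Real.pi)⁻¹ ^ 2 *
        (((10 * Real.pi * mom mu0 0).toNNReal : ℝ≥0∞) *
        ∫⁻ ζ in Metric.ball (0:ℂ) 1, ‖f ζ‖ₑ ^ 2 * ENNReal.ofReal (sW ζ))) := by gcongr
    _ = _ := by ring

lemma sW_integrable : IntegrableOn sW (Metric.ball (0:ℂ) 1) := by
  refine ⟨sW_cont.aestronglyMeasurable measurableSet_ball, ?_⟩
  rw [hasFiniteIntegral_iff_enorm]
  have h1 : ∫⁻ ζ in Metric.ball (0:ℂ) 1, ‖sW ζ‖ₑ ≤ ∫⁻ ζ in Metric.ball (0:ℂ) 1,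
      ENNReal.ofReal (s0 ζ) * 4 := by
    refine setLIntegral_mono' measurableSet_ball fun ζ hζ => ?_
    have hζ' : ‖ζ‖ < 1 := by simpa using hζ
    rw [Real.enorm_eq_ofReal (sW_pos hζ').le, sW, mul_comm, ENNReal.ofReal_mul (s0_nonneg _)]
    have h2 : ‖1 - ζ‖ ≤ 2 := by
      calc ‖1 - ζ‖ ≤ ‖(1:ℂ)‖ + ‖ζ‖ := norm_sub_le _ _
        _ ≤ 2 := by rw [norm_one]; linarith
    gcongr
    calc ENNReal.ofReal (‖1 - ζ‖ ^ 2) ≤ ENNReal.ofReal 4 := by
          refine ENNReal.ofReal_le_ofReal ?_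
          nlinarith [norm_nonneg (1 - ζ)]
      _ = 4 := by norm_num
  refine h1.trans_lt ?_
  rw [← lint_mu0 (fun _ => 4)]
  simp [ENNReal.mul_lt_top_iff]

lemma unbdd_bergmanPlus : ¬ TwoWeightBounded bergmanPlus sW wW := by
  rintro ⟨C, hC⟩
  refine PBplus_unbounded ⟨C * (Real.pi).toNNReal ^ 2, ?_⟩
  intro f hf hb hsupp
  obtain ⟨M, hM⟩ := hb
  obtain ⟨s, hs, hs2⟩ := hsupp
  have hpi := Real.pi_pos
  set g : ℂ → ℂ := fun ζ => ((‖f ζ‖ : ℝ) : ℂ) with hg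
  have htest : IsTest g := by
    refine ⟨by simp only [hg]; fun_prop, ⟨M, fun z => ?_⟩, ⟨s, hs, fun z hz => ?_⟩⟩
    · simp only [hg, Complex.norm_real, norm_norm]
      exact hM z
    · simp only [hg, hs2 z hz]
      simp
  have h1 := hC g htest
  have hP : ∀ z ∈ Metric.ball (0:ℂ) 1, ‖bergmanPlus (fun ζ => (sW ζ : ℂ) * g ζ) z‖ₑ
      = ENNReal.ofReal (Real.pi)⁻¹ * ∫⁻ ζ in Metric.ball (0:ℂ) 1,
          ‖f ζ‖ₑ * ENNReal.ofReal (sW ζ) / ‖1 - z * conj ζ‖ₑ ^ 2 := by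
    intro z hz
    have hz' : ‖z‖ < 1 := by simpa using hz
    set G : ℂ → ℝ := fun ζ => sW ζ * ‖f ζ‖ / ‖1 - z * conj ζ‖ ^ 2 with hG
    have h2 : bergmanPlus (fun ζ => (sW ζ : ℂ) * g ζ) z
        = (((Real.pi)⁻¹ * ∫ ζ in Metric.ball (0:ℂ) 1, G ζ : ℝ) : ℂ) := by
      rw [bergmanPlus, int_disk]
      push_cast
      rw [← integral_complex_ofReal, Complex.real_smul]
      push_cast
      congr 2
      ext ζ
      simp only [hG, hg]
      push_cast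
      rfl
    have hGnn : ∀ᵐ ζ ∂(volume.restrict (Metric.ball (0:ℂ) 1)), 0 ≤ G ζ := by
      filter_upwards [ae_restrict_mem measurableSet_ball] with ζ hζ
      have hζ' : ‖ζ‖ < 1 := by simpa using hζ
      have := (sW_pos hζ').le
      simp only [hG]
      positivity
    have hGm : AEStronglyMeasurable G (volume.restrict (Metric.ball (0:ℂ) 1)) := by
      have h3 : AEStronglyMeasurable sW (volume.restrict (Metric.ball (0:ℂ) 1)) :=
        sW_cont.aestronglyMeasurable measurableSet_ball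
      have h4 : Measurable (fun ζ : ℂ => ‖f ζ‖ / ‖1 - z * conj ζ‖ ^ 2) := by fun_prop
      have h5 := h3.mul h4.aestronglyMeasurable
      refine h5.congr (Filter.Eventually.of_forall fun ζ => ?_)
      simp only [hG, Pi.mul_apply]
      ring
    have hGint : Integrable G (volume.restrict (Metric.ball (0:ℂ) 1)) := by
      have hM0 : 0 ≤ M := (norm_nonneg _).trans (hM 0)
      refine Integrable.mono' (sW_integrable.integrable.mul_const (M / (1 - ‖z‖) ^ 2)) hGm ?_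
      filter_upwards [ae_restrict_mem measurableSet_ball, hGnn] with ζ hζ hn
      have hζ' : ‖ζ‖ < 1 := by simpa using hζ
      rw [Real.norm_eq_abs, abs_of_nonneg hn]
      simp only [hG]
      have h3 : 1 - ‖z‖ ≤ ‖1 - z * conj ζ‖ := by
        have : ‖(1:ℂ)‖ - ‖z * conj ζ‖ ≤ ‖1 - z * conj ζ‖ := norm_sub_norm_le _ _
        rw [norm_one, norm_mul, RCLike.norm_conj] at this
        nlinarith [norm_nonneg z, norm_nonneg ζ]
      have h4 : 0 < 1 - ‖z‖ := by linarith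
      have h5 := (sW_pos hζ').le
      rw [mul_div_assoc]
      refine mul_le_mul_of_nonneg_left ?_ h5
      have := hM ζ
      gcongr
    rw [h2, ← ofReal_norm, Complex.norm_real, Real.norm_eq_abs,
      abs_of_nonneg (mul_nonneg (by positivity) (integral_nonneg_of_ae hGnn)),
      ENNReal.ofReal_mul (by positivity), ofReal_integral_eq_lintegral_ofReal hGint hGnn]
    congr 1
    refine setLIntegral_congr_fun measurableSet_ball fun ζ hζ => ?_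
    have hζ' : ‖ζ‖ < 1 := by simpa using hζ
    have hpos : 0 < ‖1 - z * conj ζ‖ := by
      rw [norm_pos_iff]
      apply one_sub_ne
      rw [norm_mul, RCLike.norm_conj]
      nlinarith [norm_nonneg z, norm_nonneg ζ]
    simp only [hG]
    rw [ENNReal.ofReal_div_of_pos (by positivity), mul_comm (sW ζ), ENNReal.ofReal_mul (norm_nonneg _),
      ofReal_norm, ENNReal.ofReal_pow (norm_nonneg _), ofReal_norm]
  have hgf : ∀ ζ, ‖g ζ‖ₑ = ‖f ζ‖ₑ := by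
    intro ζ
    simp only [hg]
    rw [← ofReal_norm, Complex.norm_real, norm_norm, ofReal_norm]
  simp_rw [hgf] at h1
  rw [lint_disk, lint_disk] at h1
  have h2 : ∫⁻ z in Metric.ball (0:ℂ) 1, ‖bergmanPlus (fun ζ => (sW ζ : ℂ) * g ζ) z‖ₑ ^ 2 *
        ENNReal.ofReal (wW z)
      = ENNReal.ofReal (Real.pi)⁻¹ ^ 2 * ∫⁻ z in Metric.ball (0:ℂ) 1,
            (∫⁻ ζ in Metric.ball (0:ℂ) 1,
                ‖f ζ‖ₑ * ENNReal.ofReal (sW ζ) / ‖1 - z * starRingEnd ℂ ζ‖ₑ ^ 2) ^ 2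
              * ENNReal.ofReal (wW z) := by
    rw [← lintegral_const_mul' _ _ (by simp)]
    refine setLIntegral_congr_fun measurableSet_ball fun z hz => ?_
    rw [hP z hz]
    ring
  rw [h2] at h1
  have hcancel : ENNReal.ofReal Real.pi * ENNReal.ofReal (Real.pi)⁻¹ = 1 := by
    rw [← ENNReal.ofReal_mul hpi.le, mul_inv_cancel₀ hpi.ne', ENNReal.ofReal_one]
  calc ∫⁻ z in Metric.ball (0:ℂ) 1,
            (∫⁻ ζ in Metric.ball (0:ℂ) 1,
                ‖f ζ‖ₑ * ENNReal.ofReal (sW ζ) / ‖1 - z * starRingEnd ℂ ζ‖ₑ ^ 2) ^ 2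
              * ENNReal.ofReal (wW z)
      = (ENNReal.ofReal Real.pi * ENNReal.ofReal (Real.pi)⁻¹) ^ 3 * ∫⁻ z in Metric.ball (0:ℂ) 1,
            (∫⁻ ζ in Metric.ball (0:ℂ) 1,
                ‖f ζ‖ₑ * ENNReal.ofReal (sW ζ) / ‖1 - z * starRingEnd ℂ ζ‖ₑ ^ 2) ^ 2
              * ENNReal.ofReal (wW z) := by rw [hcancel, one_pow, one_mul]
    _ = ENNReal.ofReal Real.pi ^ 3 * (ENNReal.ofReal (Real.pi)⁻¹ * (ENNReal.ofReal (Real.pi)⁻¹ ^ 2 *
          ∫⁻ z in Metric.ball (0:ℂ) 1,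
            (∫⁻ ζ in Metric.ball (0:ℂ) 1,
                ‖f ζ‖ₑ * ENNReal.ofReal (sW ζ) / ‖1 - z * starRingEnd ℂ ζ‖ₑ ^ 2) ^ 2
              * ENNReal.ofReal (wW z))) := by ring
    _ ≤ ENNReal.ofReal Real.pi ^ 3 * (C * (ENNReal.ofReal (Real.pi)⁻¹ *
          ∫⁻ ζ in Metric.ball (0:ℂ) 1, ‖f ζ‖ₑ ^ 2 * ENNReal.ofReal (sW ζ))) := by gcongr
    _ = (ENNReal.ofReal Real.pi * ENNReal.ofReal (Real.pi)⁻¹) * (C * ENNReal.ofReal Real.pi ^ 2 *
          ∫⁻ ζ in Metric.ball (0:ℂ) 1, ‖f ζ‖ₑ ^ 2 * ENNReal.ofReal (sW ζ)) := by ring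
    _ = _ := by
        rw [hcancel, one_mul]
        push_cast
        rfl

/-- There are weights for which the Bergman projection is bounded but the maximal one is not. -/
theorem result :
    ∃ w σ : ℂ → ℝ, IsWeight w ∧ IsWeight σ ∧
      TwoWeightBounded bergman σ w ∧ ¬ TwoWeightBounded bergmanPlus σ w := by
  refine ⟨wW, sW, ⟨fun z hz => wW_pos (by simpa using hz), ?_⟩,
    ⟨fun z hz => sW_pos (by simpa using hz), ?_⟩, bdd_bergman, unbdd_bergmanPlus⟩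
  · exact wW_cont.locallyIntegrableOn measurableSet_ball
  · exact sW_cont.locallyIntegrableOn measurableSet_ball

end

end Pool.Agent.Results.MP_5b3867_an.BergmanTwoWeight
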